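import Pool.Agent.helper73.ASU.Spec

/-!
# Row `asu:SQ2` (project ASU, MP_f6e9a2_nt): the sum of the weights of all paths
-/

set_option autoImplicit false

namespace Pool.Agent.ASU

open Finset

lemma SQ2_wf_nonneg (n m : ℕ) : 0 ≤ wf n m := by
  unfold wf
  split_ifs
  · exact le_rfl
  · positivity

lemma SQ2_pw_nonneg {J : ℕ} (v : Fin (J + 1) → ℕ) : 0 ≤ pw v := by
  unfold pw
  exact Finset.prod_nonneg fun j _ => SQ2_wf_nonneg _ _

/-- the product of the squarefree parts along a path -/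
def SQ2_m {J : ℕ} (v : Fin (J + 1) → ℕ) : ℕ := ∏ i : Fin J, sfp (dst (v i.castSucc) (v i.succ))

/-- the weight of a longer path -/
lemma SQ2_snoc {J : ℕ} (v : Fin (J + 1) → ℕ) (w : ℕ) :
    pw (Fin.snoc v w : Fin (J + 2) → ℕ) = pw v * wf (dst (v (Fin.last J)) w) (SQ2_m v) := by
  have hc : ∀ i : Fin (J + 1), (Fin.snoc v w : Fin (J + 2) → ℕ) i.castSucc = v i := fun i =>
    Fin.snoc_castSucc (α := fun _ => ℕ) w v i
  have hl : (Fin.snoc v w : Fin (J + 2) → ℕ) (Fin.last (J + 1)) = w :=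
    Fin.snoc_last (α := fun _ => ℕ) w v
  have hs : ∀ i : Fin J, (Fin.snoc v w : Fin (J + 2) → ℕ) (i.castSucc.succ) = v i.succ := by
    intro i
    rw [Fin.succ_castSucc]
    exact hc i.succ
  have hls : (Fin.snoc v w : Fin (J + 2) → ℕ) ((Fin.last J).succ) = w := by
    rw [Fin.succ_last]
    exact hl
  unfold pw SQ2_m
  rw [Fin.prod_univ_castSucc]
  refine congrArg₂ (· * ·) ?_ ?_
  · refine Finset.prod_congr rfl fun j _ => ?_
    rw [← Fin.map_castSuccEmb_Iio, Finset.prod_map]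
    simp only [Fin.castSuccEmb_apply, hc, hs]
  · rw [Fin.Iio_last_eq_map, Finset.prod_map]
    simp only [Fin.castSuccEmb_apply, hc, hs, hls]

/-- the sum over the paths with one more step -/
lemma SQ2_sum (J : ℕ) (V : Finset ℕ) (F : (Fin (J + 2) → ℕ) → ℝ) :
    ∑ v ∈ wd (J + 2) V, F v = ∑ v ∈ wd (J + 1) V, ∑ w ∈ V, F (Fin.snoc v w : Fin (J + 2) → ℕ) := by
  rw [← Finset.sum_product']
  symm
  refine Finset.sum_nbij' (fun p : (Fin (J + 1) → ℕ) × ℕ => (Fin.snoc p.1 p.2 : Fin (J + 2) → ℕ))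
    (fun v => (fun i => v i.castSucc, v (Fin.last (J + 1)))) ?_ ?_ ?_ ?_ ?_
  · intro p hp
    rw [Finset.mem_product, Fintype.mem_piFinset] at hp
    rw [Fintype.mem_piFinset]
    intro i
    refine Fin.lastCases ?_ (fun i => ?_) i
    · rw [Fin.snoc_last]
      exact hp.2
    · rw [Fin.snoc_castSucc]
      exact hp.1 i
  · intro v hv
    rw [Fintype.mem_piFinset] at hv
    rw [Finset.mem_product, Fintype.mem_piFinset]
    exact ⟨fun i => hv _, hv _⟩
  · intro p _
    refine Prod.ext ?_ ?_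
    · funext i
      exact Fin.snoc_castSucc (α := fun _ => ℕ) p.2 p.1 i
    · exact Fin.snoc_last (α := fun _ => ℕ) p.2 p.1
  · intro v _
    funext i
    refine Fin.lastCases ?_ (fun i => ?_) i
    · simp only [Fin.snoc_last]
    · simp only [Fin.snoc_castSucc]
  · intro p _
    rfl

lemma SQ2_dst_lt (N a b : ℕ) (ha : a < N) (hb : b < N) : dst a b < N := by
  unfold dst
  omega

/-- the bound for the product of the squarefree parts -/
lemma SQ2_mle (hSQA : SQA_stmt) (J N : ℕ) (v : Fin (J + 1) → ℕ) (hv : ∀ i, v i < N) :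
    1 ≤ SQ2_m v ∧ SQ2_m v ≤ N ^ J := by
  obtain ⟨h1, -⟩ := hSQA
  constructor
  · unfold SQ2_m
    exact Nat.succ_le_of_lt (Finset.prod_pos fun i _ => Nat.lt_of_succ_le (h1 (dst (v i.castSucc) (v i.succ))).1)
  · unfold SQ2_m
    have h2 : ∀ i ∈ (Finset.univ : Finset (Fin J)), sfp (dst (v i.castSucc) (v i.succ)) ≤ N := by
      intro i _
      have hlt := SQ2_dst_lt N _ _ (hv i.castSucc) (hv i.succ)
      rcases Nat.eq_zero_or_pos (dst (v i.castSucc) (v i.succ)) with h0 | h0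
      · rw [h0]
        have : sfp 0 = 1 := by simp [sfp]
        rw [this]
        omega
      · obtain ⟨u, hu, hn⟩ := (h1 (dst (v i.castSucc) (v i.succ))).2.2 h0
        have : sfp (dst (v i.castSucc) (v i.succ)) ≤ dst (v i.castSucc) (v i.succ) := by
          calc sfp (dst (v i.castSucc) (v i.succ)) = sfp (dst (v i.castSucc) (v i.succ)) * 1 := (mul_one _).symm
            _ ≤ sfp (dst (v i.castSucc) (v i.succ)) * u ^ 2 := Nat.mul_le_mul_left _ (Nat.one_le_pow _ _ hu)
            _ = dst (v i.castSucc) (v i.succ) := hn.symm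
        omega
    have h3 := Finset.prod_le_pow_card Finset.univ
      (fun i : Fin J => sfp (dst (v i.castSucc) (v i.succ))) N h2
    simpa using h3

theorem SQ2 (hSQA : SQA_stmt) (hSQ1 : SQ1_stmt) : SQ2_stmt := by
  intro J
  induction J with
  | zero =>
    intro ε hε
    refine ⟨1, one_pos, fun N hN => ?_⟩
    have h1 : ∀ v ∈ wd (0 + 1) (range N), pw v = 1 := by
      intro v _
      unfold pw
      simp
    rw [Finset.sum_congr rfl h1, Finset.sum_const, nsmul_eq_mul, mul_one, Fintype.card_piFinset]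
    simp only [Finset.card_range, Finset.prod_const, Finset.card_univ, Fintype.card_fin]
    have hN' : (1 : ℝ) ≤ N := by exact_mod_cast hN
    have h2 : (N : ℝ) ^ (1 : ℝ) ≤ (N : ℝ) ^ (1 + ((0 : ℕ) : ℝ) / 2 + ε) :=
      Real.rpow_le_rpow_of_exponent_le hN' (by push_cast; linarith)
    rw [Real.rpow_one] at h2
    push_cast
    push_cast at h2
    linarith
  | succ J ih =>
    intro ε hε
    obtain ⟨C, hC, hCb⟩ := ih (ε / 2) (by positivity)
    obtain ⟨C', hC', hdiv⟩ := Pool.Agent.helper47.RA.card_divisors_le (ε / (4 * (J + 1))) (by positivity)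
    set e₁ : ℝ := ε / 4 with he₁
    have he₁0 : 0 < e₁ := by positivity
    refine ⟨C * (4 * C' * (1 + 1 / e₁)), by positivity, fun N hN => ?_⟩
    have hN' : (1 : ℝ) ≤ N := by exact_mod_cast hN
    have N0 : (0 : ℝ) < N := by linarith
    have hlog : 1 + Real.log N ≤ (1 + 1 / e₁) * (N : ℝ) ^ e₁ := by
      have g1 := Real.log_le_rpow_div N0.le he₁0
      have g2 : (1 : ℝ) ≤ (N : ℝ) ^ e₁ := Real.one_le_rpow hN' he₁0.le
      have g3 : (1 + 1 / e₁) * (N : ℝ) ^ e₁ = (N : ℝ) ^ e₁ + (N : ℝ) ^ e₁ / e₁ := by ring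
      rw [g3]
      linarith
    set B : ℝ := 4 * √(N : ℝ) * (C' * (N : ℝ) ^ e₁) * ((1 + 1 / e₁) * (N : ℝ) ^ e₁) with hB
    rw [SQ2_sum]
    have hin : ∀ v ∈ wd (J + 1) (range N),
        ∑ w ∈ range N, pw (Fin.snoc v w : Fin (J + 2) → ℕ) ≤ pw v * B := by
      intro v hv
      rw [Fintype.mem_piFinset] at hv
      have hv' : ∀ i, v i < N := fun i => Finset.mem_range.1 (hv i)
      obtain ⟨m1, m2⟩ := SQ2_mle hSQA J N v hv'
      have s1 : ∑ w ∈ range N, pw (Fin.snoc v w : Fin (J + 2) → ℕ) =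
          pw v * ∑ w ∈ range N, wf (dst (v (Fin.last J)) w) (SQ2_m v) := by
        rw [Finset.mul_sum]
        exact Finset.sum_congr rfl fun w _ => SQ2_snoc v w
      rw [s1]
      refine mul_le_mul_of_nonneg_left ?_ (SQ2_pw_nonneg v)
      refine (hSQ1 N (SQ2_m v) (v (Fin.last J)) hN m1 (hv' _)).trans ?_
      rw [hB]
      have t1 : ((SQ2_m v).divisors.card : ℝ) ≤ C' * (N : ℝ) ^ e₁ := by
        refine (hdiv (SQ2_m v) m1).trans ?_
        refine mul_le_mul_of_nonneg_left ?_ (by linarith)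
        have u1 : ((SQ2_m v : ℕ) : ℝ) ≤ (N : ℝ) ^ J := by exact_mod_cast m2
        calc ((SQ2_m v : ℕ) : ℝ) ^ (ε / (4 * ((J : ℝ) + 1))) ≤ ((N : ℝ) ^ J) ^ (ε / (4 * ((J : ℝ) + 1))) :=
              Real.rpow_le_rpow (Nat.cast_nonneg _) u1 (by positivity)
          _ = (N : ℝ) ^ ((J : ℝ) * (ε / (4 * ((J : ℝ) + 1)))) := by
              rw [← Real.rpow_natCast, ← Real.rpow_mul N0.le]
          _ ≤ (N : ℝ) ^ e₁ := by
              refine Real.rpow_le_rpow_of_exponent_le hN' ?_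
              have u2 : (J : ℝ) * (ε / (4 * ((J : ℝ) + 1))) = (J / (J + 1)) * (ε / 4) := by
                field_simp
              rw [u2, he₁]
              have u3 : (J : ℝ) / (J + 1) ≤ 1 := by
                rw [div_le_one (by positivity)]
                linarith
              have u4 : 0 < ε / 4 := by positivity
              nlinarith
      have hd0 : (0 : ℝ) ≤ ((SQ2_m v).divisors.card : ℝ) := Nat.cast_nonneg _
      have hl0 : 0 ≤ 1 + Real.log N := by
        have := Real.log_nonneg hN'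
        linarith
      exact mul_le_mul (mul_le_mul_of_nonneg_left t1 (by positivity)) hlog hl0 (by positivity)
    refine (Finset.sum_le_sum hin).trans ?_
    rw [← Finset.sum_mul]
    have hB0 : 0 ≤ B := by
      rw [hB]
      positivity
    refine (mul_le_mul_of_nonneg_right (hCb N hN) hB0).trans (le_of_eq ?_)
    have x1 : √(N : ℝ) = (N : ℝ) ^ (1 / 2 : ℝ) := Real.sqrt_eq_rpow _
    have x2 : (N : ℝ) ^ (1 + ((J : ℝ)) / 2 + ε / 2) * ((N : ℝ) ^ (1 / 2 : ℝ) * (N : ℝ) ^ e₁ * (N : ℝ) ^ e₁) =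
        (N : ℝ) ^ (1 + ((J + 1 : ℕ) : ℝ) / 2 + ε) := by
      rw [← Real.rpow_add N0, ← Real.rpow_add N0, ← Real.rpow_add N0]
      congr 1
      rw [he₁]
      push_cast
      ring
    rw [← x2, hB, x1]
    ring

end Pool.Agent.ASU
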